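import Pool.Agent.U115.WM.Stm

/-!
# Project WM, package DEC: the decomposition `A = B Q Bᵀ`
-/

set_option autoImplicit false

open Matrix

namespace Pool.Agent.U255.WM.DEC

open Pool.Agent.U115.WM

theorem inj_mul {n k p : ℕ} {B : Matrix (Fin n) (Fin k) ℤ} (hB : Inj B)
    {X X' : Matrix (Fin k) (Fin p) ℤ} (h : B * X = B * X') : X = X' := by
  ext i j
  have h1 : B *ᵥ (fun i => X i j - X' i j) = 0 := by
    ext l
    have h2 : (B * X) l j = (B * X') l j := by rw [h]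
    rw [Matrix.mul_apply, Matrix.mul_apply] at h2
    simp only [Matrix.mulVec, dotProduct, Pi.zero_apply, mul_sub, Finset.sum_sub_distrib]
    linarith
  have h3 := congrFun (hB _ h1) i
  simp only [Pi.zero_apply] at h3
  linarith

theorem inj_both {n k : ℕ} {B : Matrix (Fin n) (Fin k) ℤ} (hB : Inj B)
    {Q Q' : Matrix (Fin k) (Fin k) ℤ} (h : B * Q * Bᵀ = B * Q' * Bᵀ) : Q = Q' := by
  rw [Matrix.mul_assoc, Matrix.mul_assoc] at h
  have h1 := inj_mul hB h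
  have h2 : B * Qᵀ = B * Q'ᵀ := by
    have h3 := congrArg Matrix.transpose h1
    rwa [Matrix.transpose_mul, Matrix.transpose_mul, Matrix.transpose_transpose] at h3
  have h4 := inj_mul hB h2
  exact Matrix.transpose_injective h4

/-- the integral matrix `Q` exists -/
theorem exQ {n k : ℕ} {A : Matrix (Fin n) (Fin n) ℤ} {B : Matrix (Fin n) (Fin k) ℤ}
    (hA : Aᵀ = A ∨ Aᵀ = -A) (hB : IsBas A B) (hD : (Bᵀ * B).det ≠ 0) :
    ∃ Q : Matrix (Fin k) (Fin k) ℤ, A = B * Q * Bᵀ := by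
  have h1 : ∀ j : Fin n, ∃ c : Fin k → ℤ, B *ᵥ c = fun l => A l j := by
    intro j
    have h2 : (fun l => A l j) ∈ lat B := by
      rw [hB.2]
      refine ⟨1, one_ne_zero, Pi.single j 1, ?_⟩
      rw [one_smul]
      ext l
      simp
    exact h2
  choose c hc using h1
  obtain ⟨Y, hYd⟩ : ∃ Y : Matrix (Fin k) (Fin n) ℤ, Y = fun i j => c j i := ⟨_, rfl⟩
  have hY : B * Y = A := by
    ext l j
    have h2 := congrFun (hc j) l
    rw [← h2, hYd]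
    rfl
  have h3 : adjugate (Bᵀ * B) * (Bᵀ * A) = (Bᵀ * B).det • Y := by
    calc adjugate (Bᵀ * B) * (Bᵀ * A) = adjugate (Bᵀ * B) * (Bᵀ * B) * Y := by
          rw [← hY]
          simp only [Matrix.mul_assoc]
      _ = (Bᵀ * B).det • Y := by
          rw [adjugate_mul, Matrix.smul_mul, Matrix.one_mul]
  have h4 : (Bᵀ * B).det • Yᵀ = Aᵀ * (B * (adjugate (Bᵀ * B))ᵀ) := by
    rw [← Matrix.transpose_smul, ← h3]
    simp only [Matrix.transpose_mul, Matrix.transpose_transpose, Matrix.mul_assoc]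
  have h5 : ∀ i : Fin k, ∃ q : Fin k → ℤ, B *ᵥ q = Y i := by
    intro i
    have h6 : Y i ∈ lat B := by
      rw [hB.2]
      have h7 : (Bᵀ * B).det • Y i = Aᵀ *ᵥ fun l => (B * (adjugate (Bᵀ * B))ᵀ) l i := by
        ext l
        exact congrFun (congrFun h4 l) i
      rcases hA with hA | hA
      · exact ⟨_, hD, _, by rw [h7, hA]⟩
      · refine ⟨_, hD, -(fun l => (B * (adjugate (Bᵀ * B))ᵀ) l i), ?_⟩
        rw [h7, hA, Matrix.neg_mulVec, Matrix.mulVec_neg]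
    exact h6
  choose q hq using h5
  obtain ⟨Q, hQd⟩ : ∃ Q : Matrix (Fin k) (Fin k) ℤ, Q = fun i j => q i j := ⟨_, rfl⟩
  refine ⟨Q, ?_⟩
  have h8 : Q * Bᵀ = Y := by
    ext i l
    rw [← hq i, Matrix.mul_apply, hQd]
    exact Finset.sum_congr rfl fun j _ => mul_comm (q i j) (B l j)
  rw [Matrix.mul_assoc, h8, hY]

theorem detQ {n k : ℕ} {A : Matrix (Fin n) (Fin n) ℤ} {B : Matrix (Fin n) (Fin k) ℤ}
    (hB : IsBas A B) {Q : Matrix (Fin k) (Fin k) ℤ} (hQ : A = B * Q * Bᵀ) : Q.det ≠ 0 := by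
  intro h0
  obtain ⟨v, hv, hvQ⟩ := Matrix.exists_vecMul_eq_zero_iff.2 h0
  apply hv
  ext j
  have h1 : B *ᵥ (Pi.single j 1) ∈ lat B := ⟨_, rfl⟩
  rw [hB.2] at h1
  obtain ⟨d, hd, w, hw⟩ := h1
  have h2 : B *ᵥ (d • (Pi.single j 1 : Fin k → ℤ) - Q *ᵥ (Bᵀ *ᵥ w)) = 0 := by
    rw [Matrix.mulVec_sub, Matrix.mulVec_smul, hw, hQ]
    simp only [Matrix.mulVec_mulVec, Matrix.mul_assoc, sub_self]
  have h3 := hB.1 _ h2
  have h4 : Q *ᵥ (Bᵀ *ᵥ w) = d • (Pi.single j 1 : Fin k → ℤ) := (sub_eq_zero.1 h3).symm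
  have h5 : v ⬝ᵥ (Q *ᵥ (Bᵀ *ᵥ w)) = 0 := by
    rw [Matrix.dotProduct_mulVec, hvQ, zero_dotProduct]
  rw [h4, dotProduct_smul, dotProduct_single, mul_one, smul_eq_mul] at h5
  rcases mul_eq_zero.1 h5 with h | h
  · exact absurd h hd
  · exact h

theorem typ_le {n k : ℕ} {B : Matrix (Fin n) (Fin k) ℤ} (i : Fin k) (h : 1 ≤ N B i) :
    (4 : ℝ) ^ typ B i ≤ (N B i : ℝ) := by
  have h1 : 4 ^ Nat.log 4 (N B i).toNat ≤ (N B i).toNat := Nat.pow_log_le_self 4 (by omega)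
  have h2 : ((4 ^ Nat.log 4 (N B i).toNat : ℕ) : ℤ) ≤ N B i := by
    have h3 : (((N B i).toNat : ℕ) : ℤ) = N B i := Int.toNat_of_nonneg (by omega)
    rw [← h3]
    exact_mod_cast h1
  have h4 : (((4 ^ Nat.log 4 (N B i).toNat : ℕ) : ℤ) : ℝ) ≤ (N B i : ℝ) := by exact_mod_cast h2
  unfold typ
  push_cast at h4
  exact h4

theorem boundQ {n k : ℕ} {C₀ : ℝ} (hC : 1 ≤ C₀) {A : Matrix (Fin n) (Fin n) ℤ}
    {B : Matrix (Fin n) (Fin k) ℤ} (hR : Red C₀ B) {Q : Matrix (Fin k) (Fin k) ℤ}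
    (hQ : A = B * Q * Bᵀ) (h : ℝ) (hh : ∀ i j, |(A i j : ℝ)| ≤ h) (i j : Fin k) :
    |(Q i j : ℝ)| * 2 ^ (typ B i + typ B j) ≤ (C₀ * n + 1) * h := by
  have hN : ∀ i, (1 : ℝ) ≤ N B i := fun i => by exact_mod_cast hR.pos i
  have hn : 0 < n := by
    rcases Nat.eq_zero_or_pos n with h0 | h0
    · subst h0
      have := hR.pos i
      simp [N] at this
    · exact h0
  have h0 : 0 ≤ h := (abs_nonneg _).trans (hh ⟨0, hn⟩ ⟨0, hn⟩)
  obtain ⟨Y, hY⟩ : ∃ Y : Matrix (Fin k) (Fin n) ℤ, Y = Q * Bᵀ := ⟨_, rfl⟩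
  have hA : A = B * Y := by rw [hQ, hY, Matrix.mul_assoc]
  have b1 : ∀ l : Fin n, (Y i l : ℝ) ^ 2 * N B i ≤ C₀ * (n * h ^ 2) := by
    intro l
    refine (hR.quo (fun j => (Y j l : ℝ)) i).trans ?_
    refine mul_le_mul_of_nonneg_left ?_ (by linarith)
    have h1 : ∀ p : Fin n, (∑ j, (B p j : ℝ) * (Y j l : ℝ)) ^ 2 ≤ h ^ 2 := by
      intro p
      have h2 : (∑ j, (B p j : ℝ) * (Y j l : ℝ)) = (A p l : ℝ) := by
        rw [hA, Matrix.mul_apply]
        push_cast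
        rfl
      rw [h2, ← sq_abs]
      exact pow_le_pow_left₀ (abs_nonneg _) (hh p l) 2
    calc ∑ p, (∑ j, (B p j : ℝ) * (Y j l : ℝ)) ^ 2 ≤ ∑ _p : Fin n, h ^ 2 :=
          Finset.sum_le_sum fun p _ => h1 p
      _ = n * h ^ 2 := by simp
  have b2 : (Q i j : ℝ) ^ 2 * N B j ≤ C₀ * ∑ l, (Y i l : ℝ) ^ 2 := by
    refine (hR.quo (fun j => (Q i j : ℝ)) j).trans (le_of_eq ?_)
    congr 1
    refine Finset.sum_congr rfl fun l _ => ?_
    congr 1
    rw [hY, Matrix.mul_apply]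
    push_cast
    refine Finset.sum_congr rfl fun p _ => ?_
    rw [Matrix.transpose_apply, mul_comm]
  have b3 : (Q i j : ℝ) ^ 2 * N B j * N B i ≤ (C₀ * n * h) ^ 2 := by
    calc (Q i j : ℝ) ^ 2 * N B j * N B i ≤ (C₀ * ∑ l, (Y i l : ℝ) ^ 2) * N B i :=
          mul_le_mul_of_nonneg_right b2 (by linarith [hN i])
      _ = C₀ * ∑ l, (Y i l : ℝ) ^ 2 * N B i := by rw [mul_assoc, Finset.sum_mul]
      _ ≤ C₀ * ∑ _l : Fin n, C₀ * (n * h ^ 2) :=
          mul_le_mul_of_nonneg_left (Finset.sum_le_sum fun l _ => b1 l) (by linarith)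
      _ = (C₀ * n * h) ^ 2 := by
          simp only [Finset.sum_const, Finset.card_univ, Fintype.card_fin, nsmul_eq_mul]
          ring
  have b4 : (|(Q i j : ℝ)| * 2 ^ (typ B i + typ B j)) ^ 2 ≤ (C₀ * n * h) ^ 2 := by
    refine le_trans ?_ b3
    have e : (|(Q i j : ℝ)| * 2 ^ (typ B i + typ B j)) ^ 2 =
        (Q i j : ℝ) ^ 2 * (4 ^ typ B j * 4 ^ typ B i) := by
      rw [mul_pow, sq_abs, ← pow_mul, mul_comm (typ B i + typ B j) 2, pow_mul, pow_add]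
      norm_num
      left
      ring
    rw [e, mul_assoc]
    refine mul_le_mul_of_nonneg_left ?_ (sq_nonneg _)
    exact mul_le_mul (typ_le j (hR.pos j)) (typ_le i (hR.pos i)) (by positivity) (by linarith [hN j])
  have b5 := abs_le_of_sq_le_sq b4 (by positivity)
  have b6 := (le_abs_self _).trans b5
  linarith

theorem t_DEC : S_DEC := by
  intro n k C₀ hC
  refine ⟨C₀ * n + 1, by nlinarith [Nat.cast_nonneg (α := ℝ) n], fun A B hA hR hB => ?_⟩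
  have hD : (Bᵀ * B).det ≠ 0 := by
    intro h0
    have h1 := hR.low
    rw [h0] at h1
    have h2 : (1 : ℝ) ≤ ∏ i, (N B i : ℝ) := by
      have h3 : ∏ i : Fin k, (1 : ℝ) ≤ ∏ i, (N B i : ℝ) :=
        Finset.prod_le_prod (fun _ _ => zero_le_one) fun i _ => by exact_mod_cast hR.pos i
      simpa using h3
    rw [Int.cast_zero, mul_zero] at h1
    linarith
  obtain ⟨Q, hQ⟩ := exQ hA hB hD
  refine ⟨Q, ⟨hQ, fun h => ?_, fun h => ?_, detQ hB hQ, fun h hh i j => boundQ hC hR hQ h hh i j⟩,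
    fun Q' hQ' => inj_both hB.1 (hQ'.1.symm.trans hQ)⟩
  · apply inj_both hB.1
    rw [← hQ]
    have h1 : (B * Q * Bᵀ)ᵀ = B * Qᵀ * Bᵀ := by
      simp only [Matrix.transpose_mul, Matrix.transpose_transpose, Matrix.mul_assoc]
    rw [← h1, ← hQ, h]
  · apply inj_both hB.1
    have h1 : (B * Q * Bᵀ)ᵀ = B * Qᵀ * Bᵀ := by
      simp only [Matrix.transpose_mul, Matrix.transpose_transpose, Matrix.mul_assoc]
    rw [← h1, Matrix.mul_neg, Matrix.neg_mul, ← hQ, h]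

end Pool.Agent.U255.WM.DEC
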